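import Mathlib
import Pool.Agent.Lib.MP_509488_nt.Short81.UnionA

set_option autoImplicit false

/-!
# The generalised Fermat equation for almost all bases in short intervals and progressions

For every `r ≥ 2` there is `η > 0` such that for all `k` and all `N ≥ N₀(r, k)`, for every arithmetic
progression `P = {a + b j : j < N}` (for instance any interval of `N` integers, anywhere) and all
nonzero integers `A`, `C`, `y 1`, ..., `y k` with `|A C b y 1 ⋯ y k| ≤ exp ((log N) ^ (1 + η))`, all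
but at most `N ^ (1 - η)` of the `x` in `P` have the following property: the equation

  `A x ^ p + (y 1) ^ (q 1) ⋯ (y k) ^ (q k) = C z ^ r`

has no solution in integers `p ≥ 1` with at most `(log N) ^ (1 / 5)` divisors (for instance primes),
`q i ≥ 0` and `z`.  Moreover, if `log b ≤ (log N) ^ (1 + η) / 2`, all but at most `N ^ (1 - η / 2)` of
the `x` in `P` have this property for ALL nonzero `A`, `C`, `y 1`, ..., `y k` of absolute value at
most `N ^ (η / (4 (k + 2)))` at once.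
-/

namespace Pool.Agent.Results.MP_5585eb_nt.BasesInShortProgressions

/-- Almost all bases in a short progression do not occur in `A x ^ p + y ^ q = C z ^ r`, uniformly
in `p` and `q`. -/
theorem result (r : ℕ) (hr : 2 ≤ r) :
    ∃ η : ℝ, 0 < η ∧ ∀ k : ℕ, ∃ N₀ : ℕ, ∀ N : ℕ, N₀ ≤ N →
      (∀ (A C : ℤ) (y : Fin k → ℤ) (a b : ℕ), A ≠ 0 → C ≠ 0 → (∀ i, y i ≠ 0) → b ≠ 0 →
        ((|A * C * b * ∏ i, y i| : ℤ) : ℝ) ≤ Real.exp (Real.log N ^ (1 + η)) →
        ({x : ℕ | (∃ j < N, x = a + b * j) ∧ ∃ (p : ℕ) (q : Fin k → ℕ) (z : ℤ),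
            1 ≤ p ∧ (p.divisors.card : ℝ) ^ 5 ≤ Real.log N ∧
            A * (x : ℤ) ^ p + ∏ i, y i ^ q i = C * z ^ r}.ncard : ℝ) ≤
          (N : ℝ) ^ (1 - η)) ∧
      (∀ a b : ℕ, b ≠ 0 → Real.log b ≤ Real.log N ^ (1 + η) / 2 →
        ({x : ℕ | ∃ (A C : ℤ) (y : Fin k → ℤ), A ≠ 0 ∧ C ≠ 0 ∧ (∀ i, y i ≠ 0) ∧
            (|A| : ℝ) ≤ (N : ℝ) ^ (η / (4 * (k + 2))) ∧
            (|C| : ℝ) ≤ (N : ℝ) ^ (η / (4 * (k + 2))) ∧
            (∀ i, (|y i| : ℝ) ≤ (N : ℝ) ^ (η / (4 * (k + 2)))) ∧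
            (∃ j < N, x = a + b * j) ∧ ∃ (p : ℕ) (q : Fin k → ℕ) (z : ℤ),
            1 ≤ p ∧ (p.divisors.card : ℝ) ^ 5 ≤ Real.log N ∧
            A * (x : ℤ) ^ p + ∏ i, y i ^ q i = C * z ^ r}.ncard : ℝ) ≤
          (N : ℝ) ^ (1 - η / 2)) := by
  classical
  obtain ⟨η, hη, h⟩ := Pool.Agent.Lib.MP_509488_nt.Density.exc_bound r hr
  refine ⟨η, hη, fun k => ?_⟩
  obtain ⟨N₀, h⟩ := h k
  obtain ⟨N₁, h'⟩ := Pool.Agent.Lib.MP_509488_nt.Density.union_bound r η hη k N₀ h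
  exact ⟨max N₀ N₁, fun N hN => ⟨h N (le_trans (le_max_left _ _) hN),
    h' N (le_trans (le_max_right _ _) hN)⟩⟩

end Pool.Agent.Results.MP_5585eb_nt.BasesInShortProgressions
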