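import Pool.Agent.Lib.MP_509488_nt.PadeMain

set_option autoImplicit false

/-!
# First case of the Fermat-Catalan equation of signature `(p, p, r)`, uniformly in `p`

`u^p - v^p = w^r` with `p ∤ w`: the difference `u - v` is an `r`-th power `c^r`. The Padé
approximants of `(1 + x)^(p/r)` at `x = v / c^r` give a non-zero integer combination
`P - c^(rm-p) w Q` which is small and divisible by a high power of the part of `v` made of primes
`l ≢ 1 mod r`.
-/

namespace Pool.Agent.Results.MP_5585eb_nt.FirstCasePade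

open Nat Pool.Agent.Lib.MP_509488_nt Pool.Agent.Lib.MP_509488_nt.Pade

theorem cube_le_two_pow {r : ℕ} (h : 10 ≤ r) : r ^ 3 ≤ 2 ^ r := by
  induction r, h using Nat.le_induction with
  | base => norm_num
  | succ n hn ih =>
    rw [_root_.pow_succ 2 n]
    nlinarith [Nat.mul_le_mul hn hn, Nat.mul_le_mul (Nat.mul_le_mul hn hn) hn]

theorem numeric {r : ℕ} (h : 11 ≤ r) :
    (20 ^ (r - 1) * r ^ r) ^ (r + 1) < (2 ^ r) ^ ((r - 1) ^ 2) := by
  obtain ⟨s, rfl⟩ : ∃ s, r = s + 1 := ⟨r - 1, by omega⟩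
  rw [Nat.add_sub_cancel]
  by_contra hcon
  push Not at hcon
  have h1 := Nat.pow_le_pow_left hcon 3
  have h2 : ((20 ^ s * (s + 1) ^ (s + 1)) ^ (s + 1 + 1)) ^ 3 ≤
      2 ^ ((13 * s + (s + 1) ^ 2) * (s + 2)) := by
    calc ((20 ^ s * (s + 1) ^ (s + 1)) ^ (s + 1 + 1)) ^ 3
        = ((20 ^ 3) ^ s * ((s + 1) ^ 3) ^ (s + 1)) ^ (s + 2) := by
          rw [← pow_mul, ← pow_mul, ← pow_mul, mul_comm 3 s, mul_comm 3 (s + 1),
            pow_mul 20 s 3, pow_mul (s + 1) (s + 1) 3, ← mul_pow, ← pow_mul]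
          congr 1
          ring
      _ ≤ ((2 ^ 13) ^ s * (2 ^ (s + 1)) ^ (s + 1)) ^ (s + 2) := by
          apply Nat.pow_le_pow_left
          apply Nat.mul_le_mul
          · exact Nat.pow_le_pow_left (by norm_num) _
          · exact Nat.pow_le_pow_left (cube_le_two_pow (by omega)) _
      _ = 2 ^ ((13 * s + (s + 1) ^ 2) * (s + 2)) := by
          rw [← pow_mul, ← pow_mul, ← pow_add, ← pow_mul, ← pow_two]
  have h3 : 2 ^ ((s + 1) * s ^ 2 * 3) ≤ 2 ^ ((13 * s + (s + 1) ^ 2) * (s + 2)) := by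
    calc 2 ^ ((s + 1) * s ^ 2 * 3) = ((2 ^ (s + 1)) ^ (s ^ 2)) ^ 3 := by rw [pow_mul, pow_mul]
      _ ≤ _ := h1.trans h2
  have h4 := (Nat.pow_le_pow_iff_right (by norm_num : 1 < 2)).1 h3
  have hs : 10 ≤ s := by omega
  obtain ⟨t, rfl⟩ := Nat.exists_eq_add_of_le hs
  ring_nf at h4
  nlinarith

theorem result (p r : ℕ) (hp : p.Prime) (hr : r.Prime) (hp2 : p ≠ 2) (hr2 : r ≠ 2) (hpr : p ≠ r)
    (u v w : ℤ) (huv : IsCoprime u v) (hv : v ≠ 0) (hrv : ¬ (r : ℤ) ∣ v)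
    (h : u ^ p - v ^ p = w ^ r) (hpw : ¬ (p : ℤ) ∣ w)
    (v₁ v₂ : ℤ) (hv12 : v = v₁ * v₂)
    (hgood : ∀ l : ℕ, l.Prime → (l : ℤ) ∣ v₁ → ¬ l ≡ 1 [MOD r]) :
    (max |v| |u - v|) ^ ((r - 1) ^ 2) ≤
        (20 ^ (r - 1) * r ^ r) ^ (r + 1) * |v₂| ^ (2 * r * (r - 1)) ∧
      (|v₂| = 1 → 11 ≤ r → |u - v| = 1) := by
  have hrodd := hr.odd_of_ne_two hr2
  have hpodd := hp.odd_of_ne_two hp2
  obtain ⟨c, d, hc, hd, hd0⟩ := exists_cd hp hr hp2 hr2 huv h hpw
  have hw : w = c * d := by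
    have h1 : (c * d) ^ r = w ^ r := by
      rw [mul_pow, ← hc, ← hd, F_mul, h]
    exact ((hrodd.strictMono_pow (R := ℤ)).injective h1).symm
  have hc0 : c ≠ 0 := by
    rintro rfl
    rw [zero_mul] at hw
    subst hw
    exact hpw (dvd_zero _)
  have hcop : IsCoprime (u - v) v := isCoprime_sub huv
  have habs : |u - v| = |c| ^ r := by rw [hc, abs_pow]
  -- the key bound with `|c|`
  have key : (max |v| (|c| ^ r)) ^ ((r - 1) ^ 2) ≤
      (20 ^ (r - 1) * r ^ r) ^ (r + 1) * |v₂| ^ (2 * r * (r - 1)) := by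
    rcases lt_or_gt_of_ne hc0 with hneg | hpos
    · -- replace `(u, v, w)` by `(-u, -v, -w)`
      have hc' : (-c) ^ r = -(u - v) := by rw [hrodd.neg_pow, hc]
      have he : ((-c) ^ r + -v) ^ p - (-v) ^ p = (-c * d) ^ r := by
        have h1 : (-c) ^ r + -v = -u := by rw [hc']; ring
        have h2 : (-c * d) ^ r = - w ^ r := by rw [hw, neg_mul, hrodd.neg_pow]
        rw [h1, h2, hpodd.neg_pow, hpodd.neg_pow, ← h]; ring
      have h3 := main_pos hp hr hp2 hr2 hpr (c := -c) (v := -v) (v₁ := -v₁) (v₂ := v₂)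
        (w := -c * d) (by linarith) (by nlinarith) (neg_ne_zero.2 hv) (by rw [hv12]; ring)
        (by rwa [dvd_neg]) (by rw [hc']; exact hcop.neg_neg) he
        (fun l hl hlv => hgood l hl ((dvd_neg).1 hlv))
      rw [abs_neg] at h3
      rw [abs_of_neg hneg]
      exact h3
    · have he : (c ^ r + v) ^ p - v ^ p = (c * d) ^ r := by
        rw [← hc, ← hw, ← h]; ring
      have h3 := main_pos hp hr hp2 hr2 hpr (c := c) (v := v) (v₁ := v₁) (v₂ := v₂) (w := c * d)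
        hpos (by positivity) hv hv12 hrv (by rw [← hc]; exact hcop) he hgood
      rw [abs_of_pos hpos]
      exact h3
  rw [habs]
  refine ⟨key, fun hv2 hr11 => ?_⟩
  rw [hv2, one_pow, mul_one] at key
  have h4 : |c| < 2 := by
    by_contra hcon
    push Not at hcon
    have h5 : (2 : ℤ) ^ r ≤ max |v| (|c| ^ r) :=
      (pow_le_pow_left₀ (by norm_num) hcon _).trans (le_max_right _ _)
    have h6 : ((2 : ℤ) ^ r) ^ ((r - 1) ^ 2) ≤ (20 ^ (r - 1) * r ^ r) ^ (r + 1) :=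
      (pow_le_pow_left₀ (by positivity) h5 _).trans key
    have h7 : ((20 ^ (r - 1) * r ^ r) ^ (r + 1) : ℤ) < (2 ^ r) ^ ((r - 1) ^ 2) := by
      exact_mod_cast numeric hr11
    linarith
  have h5 : 0 < |c| := abs_pos.2 hc0
  have h6 : |c| = 1 := by omega
  rw [h6, one_pow]

end Pool.Agent.Results.MP_5585eb_nt.FirstCasePade
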