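import Mathlib
import Pool.Agent.Lib.MP_509488_nt.Surf.All

/-!
# Primitive solutions of the generalized Fermat equation for almost all values of one base

For every `ε > 0` there is `c > 0` such that, for all large `N`, all but at most `N ^ (1/2 + ε)` of
the integers `n` in `[1, N]` are not the third base in any solution of `x ^ p + y ^ q = n ^ r`,
`x, y ≥ 2` coprime, `p, q, r ≥ 2` pairwise coprime, `r (log p q) ^ 4 ≤ c p q`; nor in any solution of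
`± x ^ p ± y ^ q = n ^ r` in non-zero integers `x, y` and pairwise coprime `p, q, r ≥ 2` with
`p, q ≤ N ^ c` and `|x| ^ p, |y| ^ q, n ^ r ≤ n ^ (c p q)`.
-/

namespace Pool.Agent.Results.MP_5585eb_nt.OneBase

theorem result (ε : ℝ) (hε : 0 < ε) : ∃ c : ℝ, 0 < c ∧ ∃ N₀ : ℕ, ∀ N : ℕ, N₀ ≤ N →
    ({n : ℕ | 1 ≤ n ∧ n ≤ N ∧
      ((∃ x y p q r : ℕ, 2 ≤ x ∧ 2 ≤ y ∧ Nat.Coprime x y ∧ 2 ≤ p ∧ 2 ≤ q ∧ 2 ≤ r ∧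
          Nat.Coprime p q ∧ Nat.Coprime q r ∧ Nat.Coprime p r ∧
          (r : ℝ) * Real.log (p * q) ^ 4 ≤ c * (p * q) ∧ x ^ p + y ^ q = n ^ r) ∨
       (∃ (x y : ℤ) (p q r : ℕ) (s₁ s₂ : ℤ), x ≠ 0 ∧ y ≠ 0 ∧ 2 ≤ p ∧ 2 ≤ q ∧ 2 ≤ r ∧
          Nat.Coprime p q ∧ Nat.Coprime q r ∧ Nat.Coprime p r ∧
          (p : ℝ) ≤ (N : ℝ) ^ c ∧ (q : ℝ) ≤ (N : ℝ) ^ c ∧
          (s₁ = 1 ∨ s₁ = -1) ∧ (s₂ = 1 ∨ s₂ = -1) ∧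
          s₁ * x ^ p + s₂ * y ^ q = (n : ℤ) ^ r ∧ |(x : ℝ)| ^ p ≤ (n : ℝ) ^ (c * (p * q)) ∧
          |(y : ℝ)| ^ q ≤ (n : ℝ) ^ (c * (p * q)) ∧
          (n : ℝ) ^ r ≤ (n : ℝ) ^ (c * (p * q))))}.ncard : ℝ) ≤ (N : ℝ) ^ (1 / 2 + ε) :=
  Pool.Agent.Lib.MP_509488_nt.Surf.stMain' ε hε

end Pool.Agent.Results.MP_5585eb_nt.OneBase
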