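import Mathlib
import Pool.Agent.Lib.MP_509488_nt.Second

/-!
# A Wieferich-type criterion and nonexistence results for `u ^ p - v ^ p = w ^ r`
-/

namespace Pool.Agent.Results.MP_5585eb_nt.WieferichType

open Pool.Agent.Lib.MP_509488_nt NumberField

theorem result {p r : ℕ} (hp : p.Prime) (hr : r.Prime) (hp2 : p ≠ 2) (hr2 : r ≠ 2) (hpr : p ≠ r)
    (hcl : p ≤ 5 ∨ ¬ r ∣ classNumber (CyclotomicField p ℚ)) (v : ℤ)
    (hv : ∀ l : ℕ, l.Prime → (l : ℤ) ∣ v → l ≠ p → ¬ r ∣ l * (l ^ orderOf (l : ZMod p) - 1)) :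
    (∀ u w : ℤ, IsCoprime u v → u ^ p - v ^ p = w ^ r → (p < r ∨ (p : ℤ) ∣ w) →
      (p : ℤ) ^ (r - 1) ∣ ((r : ℤ) - 1) * (v ^ (p - 1) - 1)) ∧
    (p < r → 1 < |v| → ((r : ℤ) - 1) * (v ^ (p - 1) - 1) < (p : ℤ) ^ (r - 1) →
      ∀ u w : ℤ, IsCoprime u v → u ^ p - v ^ p ≠ w ^ r) := by
  refine ⟨fun u w huv h hc => wieferich hp hr hp2 hr2 hpr hcl huv h hc hv, ?_⟩
  intro hlt hv1 hsize u w huv h
  have h1 := wieferich hp hr hp2 hr2 hpr hcl huv h (Or.inl hlt) hv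
  have h2 : (0 : ℤ) < (r : ℤ) - 1 := by
    have := hr.one_lt
    omega
  have h3 : 0 < v ^ (p - 1) - 1 := by
    have he : Even (p - 1) := Nat.Odd.sub_odd (hp.odd_of_ne_two hp2) odd_one
    rw [← he.pow_abs]
    have := one_lt_pow₀ hv1 (n := p - 1) (by have := hp.two_le; omega)
    omega
  exact absurd (Int.le_of_dvd (mul_pos h2 h3) h1) (not_le.2 hsize)

end Pool.Agent.Results.MP_5585eb_nt.WieferichType
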